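import Pool.Agent.Helper61.QE.St1

set_option autoImplicit false

open MeasureTheory Set Filter Topology Complex
open scoped ContDiff ComplexConjugate ENNReal

namespace Pool.Agent.Helper31.QE

open Pool.Agent.Helper68.QC
open Pool.Agent.Helper61.QE

/-- MODULE CNT. -/
theorem pCNT (hFUX : Pool.Agent.Helper61.QE.StFUX) (hMBF : Pool.Agent.Helper61.QE.StMBF)
    (hSUM : Pool.Agent.Helper61.QE.StSUM) (hIND : Pool.Agent.Helper61.QE.StIND) :
    Pool.Agent.Helper61.QE.StCNT := by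
  classical
  intro Γ _ s F hs hF δ hδ
  obtain ⟨hcount, -, -⟩ := hFUX Γ s hs
  obtain ⟨C0, hC0, hsum⟩ := hSUM Γ s hs
  refine ⟨16 * C0 / δ ^ 4, by positivity, ?_⟩
  intro G hG R hR
  obtain ⟨hne, hT⟩ := hsum G hG R hR
  obtain ⟨i1, i2, -⟩ := hIND Γ s F G R hs hF hR
  let E : Γ → Set ℂ := fun γ => {a | γ ≠ 1 ∧ ‖a - pl (R γ)‖ * (δ * ‖R γ 1 0‖ ^ 2) ≤ 2}
  have hEm : ∀ γ, MeasurableSet (E γ) := by
    intro γ
    by_cases h1 : γ = 1
    · have : E γ = ∅ := by
        ext a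
        simp [E, h1]
      rw [this]
      exact MeasurableSet.empty
    · have : E γ = {a | ‖a - pl (R γ)‖ * (δ * ‖R γ 1 0‖ ^ 2) ≤ 2} := by
        ext a
        simp [E, h1]
      rw [this]
      refine measurableSet_le ?_ measurable_const
      fun_prop
  have hNd : Nd R δ = fun a => ∑' γ : Γ, (E γ).indicator (fun _ => (1 : ℝ≥0∞)) a := by
    funext a
    unfold Nd
    refine tsum_congr fun γ => ?_
    by_cases h : a ∈ E γ
    · rw [indicator_of_mem h]
      exact if_pos h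
    · rw [indicator_of_notMem h]
      exact if_neg h
  have hm1 : ∀ γ, Measurable ((E γ).indicator (fun _ => (1 : ℝ≥0∞))) := fun γ =>
    measurable_const.indicator (hEm γ)
  have hGD : MeasurableSet (G '' D) := G.measurableEmbedding.measurableSet_image.2 measurableSet_ball
  refine ⟨?_, ?_⟩
  · rw [hNd]
    exact Measurable.ennreal_tsum hm1
  have hone : ∀ γ, ∫⁻ a in G '' D, (E γ).indicator (fun _ => (1 : ℝ≥0∞)) a = volume (E γ ∩ G '' D) := by
    intro γ
    rw [lintegral_indicator (hEm γ), lintegral_one, Measure.restrict_apply_univ,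
      Measure.restrict_apply (hEm γ)]
  have hbd : ∀ γ, volume (E γ ∩ G '' D) ≤
      ENNReal.ofReal (16 / δ ^ 4) * (if γ ≠ 1 then ENNReal.ofReal ((‖R γ 1 0‖ ^ 4)⁻¹) else 0) * volume (G '' D) := by
    intro γ
    by_cases h1 : γ = 1
    · have : E γ = ∅ := by
        ext a
        simp [E, h1]
      rw [this]
      simp
    · rw [if_pos h1]
      obtain ⟨hc, -, -⟩ := hne γ h1
      have hcn : 0 < ‖R γ 1 0‖ := norm_pos_iff.2 hc
      obtain ⟨m1, -⟩ := hMBF (R γ) hc
      have h2 := i2 γ (E γ ∩ G '' D) inter_subset_right ((hEm γ).inter hGD) (fun _ => 1) measurable_const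
      simp only [one_mul, lintegral_one, Measure.restrict_apply_univ] at h2
      have h3 : ENNReal.ofReal ((δ * ‖R γ 1 0‖ / 2) ^ 4) * volume (E γ ∩ G '' D) ≤ volume (G '' D) := by
        calc ENNReal.ofReal ((δ * ‖R γ 1 0‖ / 2) ^ 4) * volume (E γ ∩ G '' D)
            = ∫⁻ _ in E γ ∩ G '' D, ENNReal.ofReal ((δ * ‖R γ 1 0‖ / 2) ^ 4) := by
              rw [setLIntegral_const]
          _ ≤ ∫⁻ ξ in E γ ∩ G '' D, ENNReal.ofReal (‖den (R γ) ξ‖⁻¹ ^ 4) := by
              refine setLIntegral_mono' ((hEm γ).inter hGD) ?_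
              rintro ξ ⟨hξ1, hξ2⟩
              apply ENNReal.ofReal_le_ofReal
              have h4 : 0 < ‖den (R γ) ξ‖ := norm_pos_iff.2 (i1 γ ξ hξ2).1
              have h5 : ‖den (R γ) ξ‖ = ‖R γ 1 0‖ * ‖ξ - pl (R γ)‖ := by rw [m1, norm_mul]
              have h6 : ‖den (R γ) ξ‖ * (δ * ‖R γ 1 0‖) ≤ 2 := by
                rw [h5]
                have := hξ1.2
                nlinarith
              refine pow_le_pow_left₀ (by positivity) ?_ 4
              rw [div_le_iff₀ (by norm_num), ← div_eq_inv_mul, le_div_iff₀ h4]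
              linarith
          _ = volume (mob (R γ) '' (E γ ∩ G '' D)) := h2
          _ ≤ volume (G '' D) := by
              apply measure_mono
              rintro _ ⟨ξ, hξ, rfl⟩
              exact (i1 γ ξ hξ.2).2.1
      have h7 : ENNReal.ofReal (16 / δ ^ 4) * ENNReal.ofReal ((‖R γ 1 0‖ ^ 4)⁻¹) *
          ENNReal.ofReal ((δ * ‖R γ 1 0‖ / 2) ^ 4) = 1 := by
        rw [← ENNReal.ofReal_mul (by positivity), ← ENNReal.ofReal_mul (by positivity)]
        rw [show 16 / δ ^ 4 * (‖R γ 1 0‖ ^ 4)⁻¹ * (δ * ‖R γ 1 0‖ / 2) ^ 4 = 1 by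
          field_simp
          norm_num]
        exact ENNReal.ofReal_one
      calc volume (E γ ∩ G '' D) = ENNReal.ofReal (16 / δ ^ 4) * ENNReal.ofReal ((‖R γ 1 0‖ ^ 4)⁻¹) *
            (ENNReal.ofReal ((δ * ‖R γ 1 0‖ / 2) ^ 4) * volume (E γ ∩ G '' D)) := by
            rw [← mul_assoc, h7, one_mul]
        _ ≤ _ := by gcongr
  have hts : ∑' γ : Γ, (if γ ≠ 1 then ENNReal.ofReal ((‖R γ 1 0‖ ^ 4)⁻¹) else 0) ≤ ENNReal.ofReal C0 := by
    rw [ENNReal.tsum_eq_iSup_sum]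
    refine iSup_le fun T => ?_
    rw [← Finset.sum_filter, ← ENNReal.ofReal_sum_of_nonneg (fun γ _ => by positivity)]
    apply ENNReal.ofReal_le_ofReal
    exact hT (T.filter (· ≠ 1)) (by simp)
  rw [hNd, lintegral_tsum fun γ => (hm1 γ).aemeasurable]
  calc ∑' γ, ∫⁻ a in G '' D, (E γ).indicator (fun _ => (1 : ℝ≥0∞)) a
      = ∑' γ, volume (E γ ∩ G '' D) := tsum_congr hone
    _ ≤ ∑' γ, ENNReal.ofReal (16 / δ ^ 4) * (if γ ≠ 1 then ENNReal.ofReal ((‖R γ 1 0‖ ^ 4)⁻¹) else 0) *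
          volume (G '' D) := ENNReal.tsum_le_tsum hbd
    _ = ENNReal.ofReal (16 / δ ^ 4) * (∑' γ : Γ, (if γ ≠ 1 then ENNReal.ofReal ((‖R γ 1 0‖ ^ 4)⁻¹) else 0)) *
          volume (G '' D) := by
        rw [ENNReal.tsum_mul_right, ENNReal.tsum_mul_left]
    _ ≤ ENNReal.ofReal (16 / δ ^ 4) * ENNReal.ofReal C0 * volume (G '' D) := by gcongr
    _ = ENNReal.ofReal (16 * C0 / δ ^ 4) * volume (G '' D) := by
        rw [← ENNReal.ofReal_mul (by positivity)]
        congr 2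
        ring

end Pool.Agent.Helper31.QE
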