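import Pool.Agent.Helper61.QE.St1

set_option autoImplicit false

open MeasureTheory Set Filter Topology Complex
open scoped ContDiff ComplexConjugate ENNReal

namespace Pool.Agent.Helper31.QE

open Pool.Agent.Helper68.QC
open Pool.Agent.Helper61.QE

lemma det_mul (a : ℂ) :
    (((ContinuousLinearMap.toSpanSingleton ℂ a : ℂ →L[ℂ] ℂ)).restrictScalars ℝ).det
      = ‖a‖ ^ 2 := by
  rw [ContinuousLinearMap.det, ← LinearMap.det_toMatrix Complex.basisOneI, Matrix.det_fin_two]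
  simp only [LinearMap.toMatrix_apply, ContinuousLinearMap.coe_coe,
    Complex.coe_basisOneI, Complex.coe_basisOneI_repr]
  rw [← Complex.normSq_eq_norm_sq, Complex.normSq_apply]
  simp

theorem mob_mem (hSUB : StSUB) {A : SL} (hA : SU A) {z : ℂ} (hz : z ∈ D) : den A z ≠ 0 ∧ mob A z ∈ D := by
  obtain ⟨-, -, -, s4, s5, -⟩ := hSUB
  have hz1 : ‖z‖ < 1 := by simpa using hz
  have h0 := s4 A hA z hz1.le
  refine ⟨h0, ?_⟩
  have h5 := s5 A hA z h0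
  have h6 : 0 < 1 - ‖z‖ ^ 2 := by nlinarith [norm_nonneg z]
  have h7 : 0 < ‖den A z‖ ^ 2 := by positivity
  have h8 : 0 < 1 - ‖mob A z‖ ^ 2 := by
    by_contra hn
    push Not at hn
    nlinarith [mul_nonneg_of_nonpos_of_nonpos hn (neg_nonpos.2 h7.le)]
  have h9 : ‖mob A z‖ < 1 := by nlinarith [norm_nonneg (mob A z)]
  simpa using h9

/-- MODULE IND. -/
theorem pIND (hSUB : Pool.Agent.Helper61.QE.StSUB) (hFUX : Pool.Agent.Helper61.QE.StFUX) :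
    Pool.Agent.Helper61.QE.StIND := by
  intro Γ _ s F G R hs hF hR
  obtain ⟨hcount, -, -⟩ := hFUX Γ s hs
  obtain ⟨s1, s2, s3, s4, s5, s6, s7, s8, s9, s10⟩ := id hSUB
  have hinv : ∀ (S : Γ →* SL) (γ : Γ), S γ⁻¹ = (S γ)⁻¹ := fun S γ => map_inv S γ
  have c1 : ∀ γ, ∀ ξ ∈ G '' D, den (R γ) ξ ≠ 0 ∧ mob (R γ) ξ ∈ G '' D ∧ mob (R γ⁻¹) (mob (R γ) ξ) = ξ := by
    rintro γ _ ⟨z, hz, rfl⟩
    obtain ⟨h1, h2⟩ := mob_mem hSUB (hs.su γ) hz
    have h3 : den (R γ) (G z) ≠ 0 := fun h => h1 (((hR γ).1 z).2 h)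
    refine ⟨h3, ⟨mob (s γ) z, h2, (hR γ).2.1 z h1⟩, ?_⟩
    rw [hinv R]
    exact (s10 (R γ) (G z) h3).1
  have hinj : ∀ γ, InjOn (mob (R γ)) (G '' D) := by
    intro γ x hx y hy hxy
    rw [← (c1 γ x hx).2.2, ← (c1 γ y hy).2.2, hxy]
  have hder : ∀ γ, ∀ ξ ∈ G '' D, HasDerivAt (mob (R γ)) ((den (R γ) ξ ^ 2)⁻¹) ξ := fun γ ξ hξ =>
    s2 (R γ) ξ (c1 γ ξ hξ).1
  have c2 : ∀ γ, ∀ E ⊆ G '' D, MeasurableSet E → ∀ g : ℂ → ℝ≥0∞, Measurable g →
      ∫⁻ ξ in E, g (mob (R γ) ξ) * ENNReal.ofReal (‖den (R γ) ξ‖⁻¹ ^ 4) =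
        ∫⁻ ξ in (mob (R γ)) '' E, g ξ := by
    intro γ E hE hEm g hg
    rw [lintegral_image_eq_lintegral_abs_det_fderiv_mul (volume : Measure ℂ) hEm
      (f' := fun ξ => ((ContinuousLinearMap.toSpanSingleton ℂ ((den (R γ) ξ ^ 2)⁻¹) : ℂ →L[ℂ] ℂ)).restrictScalars ℝ)
      (fun ξ hξ => ((hder γ ξ (hE hξ)).hasFDerivAt.restrictScalars ℝ).hasFDerivWithinAt)
      ((hinj γ).mono hE)]
    apply lintegral_congr
    intro ξ
    rw [det_mul, mul_comm]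
    congr 2
    rw [abs_of_nonneg (by positivity), norm_inv, norm_pow, ← inv_pow, ← pow_mul]
  refine ⟨c1, c2, ?_⟩
  intro g hg
  -- the fundamental domain
  have hFD : F ⊆ D := by
    intro z hz
    obtain ⟨r, hr, h⟩ := hF.cpt
    have := (h z hz).trans_lt hr
    simpa using this
  have hGF : G '' F ⊆ G '' D := image_mono hFD
  have hGFm : MeasurableSet (G '' F) := G.measurableEmbedding.measurableSet_image.2 hF.meas
  have hmeas : ∀ γ, MeasurableSet (mob (R γ) '' (G '' F)) := by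
    intro γ
    apply hGFm.image_of_continuousOn_injOn
    · intro ξ hξ
      exact (hder γ ξ (hGF hξ)).continuousAt.continuousWithinAt
    · exact (hinj γ).mono hGF
  have hunion : (⋃ γ, mob (R γ) '' (G '' F)) = G '' D := by
    apply Subset.antisymm
    · apply iUnion_subset
      rintro γ _ ⟨ξ, hξ, rfl⟩
      exact (c1 γ ξ (hGF hξ)).2.1
    · rintro _ ⟨z, hz, rfl⟩
      obtain ⟨γ, hγ⟩ := hF.cov z hz
      obtain ⟨h1, h2⟩ := mob_mem hSUB (hs.su γ) hz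
      refine mem_iUnion.2 ⟨γ⁻¹, ?_⟩
      refine ⟨G (mob (s γ) z), ⟨_, hγ, rfl⟩, ?_⟩
      rw [(hR γ).2.1 z h1]
      exact (c1 γ (G z) ⟨z, hz, rfl⟩).2.2
  have hdisj : Pairwise (Function.onFun Disjoint fun γ => mob (R γ) '' (G '' F)) := by
    intro γ δ hne
    rw [Function.onFun, Set.disjoint_left]
    rintro _ ⟨_, ⟨z, hz, rfl⟩, rfl⟩ ⟨_, ⟨z', hz', rfl⟩, heq⟩
    apply hne
    obtain ⟨h1, h2⟩ := mob_mem hSUB (hs.su γ) (hFD hz)
    obtain ⟨h1', h2'⟩ := mob_mem hSUB (hs.su δ) (hFD hz')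
    rw [← (hR γ).2.1 z h1, ← (hR δ).2.1 z' h1'] at heq
    have h3 : mob (s δ) z' = mob (s γ) z := G.injective heq
    have h4 : mob (s (δ⁻¹ * γ)) z = z' := by
      rw [map_mul, (s1 (s δ⁻¹) (s γ) z h1).2, ← h3, hinv s]
      exact (s10 (s δ) z' h1').1
    have h5 := hF.uni z hz (δ⁻¹ * γ) (by rw [h4]; exact hz')
    exact (inv_mul_eq_one.1 h5).symm
  rw [← hunion, lintegral_iUnion hmeas hdisj]
  exact tsum_congr fun γ => (c2 γ _ hGF hGFm g hg).symm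

end Pool.Agent.Helper31.QE
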